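import Pool.Agent.H43.G.R_seed8.TH823.MRS.Circ2
import Pool.Agent.H43.G.R_seed8.W110.HV.Avg

set_option autoImplicit false

/-! Exponential sums and residue classes in short windows of integers. -/

namespace Pool.Agent.TH892.RT

open Finset
open Pool.Agent.Helper112 (ee ls_ee_zero ls_ee_add ls_ee_int ls_norm_ee ls_conj_ee)
open Pool.Agent.W110.HV (SN AD AD_nonneg AD_weighted frac_sum orth mul_conj_norm)
open Pool.Agent.TH823.MRS (ExpoSmall win_l1)

/-- a function of the absolute value of an integer -/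
def hz (h : ℕ → ℂ) (u : ℤ) : ℂ := h u.natAbs

lemma hz_norm (h : ℕ → ℂ) (hb : ∀ n, ‖h n‖ ≤ 1) (u : ℤ) : ‖hz h u‖ ≤ 1 := hb _

/-- the exponential sum over the window `(u, u + W]` -/
noncomputable def WS (h : ℕ → ℂ) (W : ℕ) (u : ℤ) (α : ℝ) : ℂ := SN W (fun n => hz h (u + n)) α

lemma ee_eq (x : ℝ) : Pool.Agent.H807R2.Dav.ee x = ee x := by
  unfold Pool.Agent.H807R2.Dav.ee ee
  congr 1; ring

/-- the windows of `win_l1` -/
noncomputable def PW (h : ℕ → ℂ) (X W : ℕ) (α : ℝ) (z : ℕ) : ℂ :=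
  ∑ n ∈ Icc 1 (3 * X), if n ≤ z ∧ z < n + W then h n * Pool.Agent.H807R2.Dav.ee ((n : ℝ) * α) else 0

lemma PW_zero (h : ℕ → ℂ) (X W : ℕ) (α : ℝ) : PW h X W α 0 = 0 := by
  unfold PW
  apply sum_eq_zero
  intro n hn
  rw [mem_Icc] at hn
  rw [if_neg]; omega

lemma WS_le (h : ℕ → ℂ) (hb : ∀ n, ‖h n‖ ≤ 1) (X W : ℕ) (hW : W ≤ X) (α : ℝ) (u : ℤ) (hu : u ∈ Icc (-(X : ℤ)) X) :
    ‖WS h W u α‖ ≤ ‖PW h X W α (u + W).toNat‖ + ‖PW h X W (-α) (-u - 1).toNat‖ +
      (if -(W : ℤ) ≤ u ∧ u < 0 then 1 else 0) := by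
  rw [mem_Icc] at hu
  have e1 : WS h W u α = ee (-(u : ℝ) * α) * ∑ v ∈ Ioc u (u + W), hz h v * ee (v * α) := by
    unfold WS SN
    rw [mul_sum]
    apply sum_nbij' (fun n : ℕ => u + (n : ℤ)) (fun v : ℤ => (v - u).toNat)
    · intro n hn
      rw [mem_Icc] at hn
      rw [mem_Ioc]; omega
    · intro v hv
      rw [mem_Ioc] at hv
      rw [mem_Icc]; omega
    · intro n hn
      simp
    · intro v hv
      rw [mem_Ioc] at hv
      omega
    · intro n hn
      have : ee ((n : ℝ) * α) = ee (-(u : ℝ) * α) * ee (((u + (n : ℤ) : ℤ) : ℝ) * α) := by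
        rw [← ls_ee_add]
        congr 1
        push_cast
        ring
      rw [this]
      ring
  have e2 : ∑ v ∈ Ioc u (u + W), hz h v * ee (v * α) = PW h X W α (u + W).toNat + PW h X W (-α) (-u - 1).toNat +
      (if -(W : ℤ) ≤ u ∧ u < 0 then h 0 else 0) := by
    rw [← sum_filter_add_sum_filter_not (Ioc u (u + W)) (fun v => 0 < v),
      ← sum_filter_add_sum_filter_not ((Ioc u (u + W)).filter (fun v => ¬ 0 < v)) (fun v => v < 0)]
    rw [add_assoc]
    congr 1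
    · unfold PW
      rw [← sum_filter]
      apply sum_nbij' (fun v : ℤ => v.toNat) (fun n : ℕ => (n : ℤ))
      · intro v hv
        rw [mem_filter, mem_Ioc] at hv
        rw [mem_filter, mem_Icc]; omega
      · intro n hn
        rw [mem_filter, mem_Icc] at hn
        rw [mem_filter, mem_Ioc]; omega
      · intro v hv
        rw [mem_filter, mem_Ioc] at hv
        omega
      · intro n hn
        simp
      · intro v hv
        rw [mem_filter, mem_Ioc] at hv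
        rw [ee_eq]
        unfold hz
        have h1 : v.natAbs = v.toNat := by omega
        have h2 : ((v.toNat : ℕ) : ℝ) = (v : ℝ) := by
          have : ((v.toNat : ℕ) : ℤ) = v := by omega
          exact_mod_cast this
        rw [h1, h2]
    congr 1
    · unfold PW
      rw [← sum_filter]
      apply sum_nbij' (fun v : ℤ => (-v).toNat) (fun n : ℕ => -(n : ℤ))
      · intro v hv
        rw [mem_filter, mem_filter, mem_Ioc] at hv
        rw [mem_filter, mem_Icc]; omega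
      · intro n hn
        rw [mem_filter, mem_Icc] at hn
        rw [mem_filter, mem_filter, mem_Ioc]; omega
      · intro v hv
        rw [mem_filter, mem_filter, mem_Ioc] at hv
        omega
      · intro n hn
        simp
      · intro v hv
        rw [mem_filter, mem_filter, mem_Ioc] at hv
        rw [ee_eq]
        unfold hz
        have h1 : v.natAbs = (-v).toNat := by omega
        have h2 : (((-v).toNat : ℕ) : ℝ) = -(v : ℝ) := by
          have : (((-v).toNat : ℕ) : ℤ) = -v := by omega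
          exact_mod_cast this
        rw [h1, h2]
        congr 2; ring
    · split_ifs with h0
      · have : ((Ioc u (u + W)).filter (fun v => ¬ 0 < v)).filter (fun v => ¬ v < 0) = {0} := by
          ext v
          rw [mem_filter, mem_filter, mem_Ioc, mem_singleton]
          omega
        rw [this, sum_singleton]
        unfold hz
        simp [ls_ee_zero]
      · apply sum_eq_zero
        intro v hv
        rw [mem_filter, mem_filter, mem_Ioc] at hv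
        omega
  rw [e1, norm_mul, ls_norm_ee, one_mul, e2]
  refine (norm_add_le _ _).trans ?_
  apply add_le_add (norm_add_le _ _)
  split_ifs
  · exact hb 0
  · simp

lemma sum_toNat (f : ℕ → ℝ) (hf : ∀ z, 0 ≤ f z) (h0 : f 0 = 0) (S : Finset ℤ) (φ : ℤ → ℤ) (hφ : Function.Injective φ)
    (N : ℕ) (hN : ∀ u ∈ S, φ u ≤ N) : ∑ u ∈ S, f (φ u).toNat ≤ ∑ z ∈ range (N + 1), f z := by
  have h1 : ∑ u ∈ S, f (φ u).toNat = ∑ u ∈ S.filter (fun u => 0 < φ u), f (φ u).toNat := by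
    rw [sum_filter]
    apply sum_congr rfl
    intro u _
    split_ifs with h
    · rfl
    · have : (φ u).toNat = 0 := by omega
      rw [this, h0]
  rw [h1]
  have h2 : ∑ u ∈ S.filter (fun u => 0 < φ u), f (φ u).toNat =
      ∑ z ∈ (S.filter (fun u => 0 < φ u)).image (fun u => (φ u).toNat), f z := by
    rw [sum_image]
    intro a ha b hb hab
    rw [coe_filter, Set.mem_setOf_eq] at ha hb
    apply hφ
    simp only at hab
    omega
  rw [h2]
  apply sum_le_sum_of_subset_of_nonneg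
  · intro z hz
    rw [mem_image] at hz
    obtain ⟨u, hu, rfl⟩ := hz
    rw [mem_filter] at hu
    have := hN u hu.1
    rw [mem_range]; omega
  · intro z _ _
    exact hf z

/-- the exponential sums over the windows of integers -/
lemma winZ (h : ℕ → ℂ) (hb : ∀ n, ‖h n‖ ≤ 1) (hE : ExpoSmall h) (ε : ℝ) (hε : 0 < ε) :
    ∃ W₀ X₀ : ℕ, ∀ X : ℕ, X₀ ≤ X → ∀ W : ℕ, W₀ ≤ W → W ≤ X → ∀ α : ℝ,
      ∑ u ∈ Icc (-(X : ℤ)) X, ‖WS h W u α‖ ≤ ε * W * X := by
  obtain ⟨W₀, X₀, hX⟩ := win_l1 h hE (ε / 3) (by positivity)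
  refine ⟨W₀, max X₀ ⌈3 / ε⌉₊, fun X hX0 W hW1 hW2 α => ?_⟩
  have hX1 : X₀ ≤ X := le_trans (le_max_left _ _) hX0
  have hX2 : 3 / ε ≤ X := (Nat.le_ceil _).trans (by exact_mod_cast le_trans (le_max_right _ _) hX0)
  have hX3 : 1 ≤ ε / 3 * X := by
    rw [div_le_iff₀ hε] at hX2
    linarith
  have k1 := hX X hX1 W hW1 hW2 α
  have k2 := hX X hX1 W hW1 hW2 (-α)
  have s1 : ∑ u ∈ Icc (-(X : ℤ)) X, ‖PW h X W α (u + W).toNat‖ ≤ ε / 3 * W * X := by
    refine (sum_toNat (fun z => ‖PW h X W α z‖) (fun z => norm_nonneg _) (by simp [PW_zero]) _ (fun u => u + W)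
      (fun a b hab => by simpa using hab) (3 * X) ?_).trans k1
    intro u hu
    rw [mem_Icc] at hu
    push_cast; omega
  have s2 : ∑ u ∈ Icc (-(X : ℤ)) X, ‖PW h X W (-α) (-u - 1).toNat‖ ≤ ε / 3 * W * X := by
    refine (sum_toNat (fun z => ‖PW h X W (-α) z‖) (fun z => norm_nonneg _) (by simp [PW_zero]) _ (fun u => -u - 1)
      (fun a b hab => by simpa using hab) (3 * X) ?_).trans k2
    intro u hu
    rw [mem_Icc] at hu
    push_cast; omega
  have s3 : ∑ u ∈ Icc (-(X : ℤ)) X, (if -(W : ℤ) ≤ u ∧ u < 0 then (1 : ℝ) else 0) ≤ W := by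
    rw [← sum_filter, sum_const, nsmul_eq_mul, mul_one]
    have : ((Icc (-(X : ℤ)) X).filter (fun u => -(W : ℤ) ≤ u ∧ u < 0)).card ≤ (Ico (-(W : ℤ)) 0).card := by
      apply card_le_card
      intro u hu
      rw [mem_filter] at hu
      rw [mem_Ico]; exact hu.2
    rw [Int.card_Ico] at this
    have h2 : (0 - -(W : ℤ)).toNat = W := by omega
    rw [h2] at this
    exact_mod_cast this
  calc ∑ u ∈ Icc (-(X : ℤ)) X, ‖WS h W u α‖ ≤ ∑ u ∈ Icc (-(X : ℤ)) X, (‖PW h X W α (u + W).toNat‖ + ‖PW h X W (-α) (-u - 1).toNat‖ +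
      (if -(W : ℤ) ≤ u ∧ u < 0 then 1 else 0)) := sum_le_sum fun u hu => WS_le h hb X W hW2 α u hu
    _ ≤ ε / 3 * W * X + ε / 3 * W * X + W := by
      rw [sum_add_distrib, sum_add_distrib]
      linarith
    _ ≤ ε / 3 * W * X + ε / 3 * W * X + ε / 3 * X * W := by
      have : (1 : ℝ) * W ≤ ε / 3 * X * W := mul_le_mul_of_nonneg_right hX3 (by positivity)
      linarith
    _ = _ := by ring

/-- Parseval for the residue classes -/
lemma class_pars (W : ℕ) (g : ℕ → ℂ) (q : ℕ) (hq : 0 < q) :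
    (q : ℝ) * ∑ r ∈ range q, ‖∑ n ∈ (Icc 1 W).filter (fun n => n % q = r), g n‖ ^ 2 =
      ∑ b ∈ range q, ‖SN W g ((b : ℝ) / q)‖ ^ 2 := by
  have e1 : ∀ b ∈ range q, ((‖SN W g ((b : ℝ) / q)‖ ^ 2 : ℝ) : ℂ) =
      ∑ n ∈ Icc 1 W, ∑ m ∈ Icc 1 W, g n * (starRingEnd ℂ) (g m) * ee ((((n : ℤ) - (m : ℤ) : ℤ) : ℝ) * ((b : ℝ) / q)) := by
    intro b _
    rw [← mul_conj_norm]
    unfold SN
    rw [map_sum, sum_mul_sum]
    refine sum_congr rfl fun n _ => sum_congr rfl fun m _ => ?_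
    rw [map_mul, ls_conj_ee]
    have : ee ((((n : ℤ) - (m : ℤ) : ℤ) : ℝ) * ((b : ℝ) / q)) = ee (n * ((b : ℝ) / q)) * ee (-(m * ((b : ℝ) / q))) := by
      rw [← ls_ee_add]
      congr 1
      push_cast
      ring
    rw [this]
    ring
  have e2 : ∀ r ∈ range q, ((‖∑ n ∈ (Icc 1 W).filter (fun n => n % q = r), g n‖ ^ 2 : ℝ) : ℂ) =
      ∑ n ∈ Icc 1 W, ∑ m ∈ Icc 1 W, if n % q = r ∧ m % q = r then g n * (starRingEnd ℂ) (g m) else 0 := by
    intro r _
    rw [← mul_conj_norm, map_sum, sum_mul_sum, sum_filter]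
    refine sum_congr rfl fun n _ => ?_
    rw [sum_filter]
    split_ifs with h1
    · refine sum_congr rfl fun m _ => ?_
      simp [h1]
    · rw [sum_eq_zero]
      intro m _
      rw [if_neg (fun h => h1 h.1)]
  have key : ((((q : ℝ) * ∑ r ∈ range q, ‖∑ n ∈ (Icc 1 W).filter (fun n => n % q = r), g n‖ ^ 2 : ℝ)) : ℂ) =
      ((∑ b ∈ range q, ‖SN W g ((b : ℝ) / q)‖ ^ 2 : ℝ) : ℂ) := by
    rw [Complex.ofReal_mul, Complex.ofReal_sum, Complex.ofReal_sum, sum_congr rfl e1, sum_congr rfl e2]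
    rw [sum_comm, sum_comm (s := range q), mul_sum]
    refine sum_congr rfl fun n _ => ?_
    rw [sum_comm, sum_comm (s := range q), mul_sum]
    refine sum_congr rfl fun m _ => ?_
    rw [← mul_sum, orth q hq]
    have h1 : ∑ r ∈ range q, (if n % q = r ∧ m % q = r then g n * (starRingEnd ℂ) (g m) else 0) =
        if n % q = m % q then g n * (starRingEnd ℂ) (g m) else 0 := by
      rw [sum_eq_single (n % q)]
      · by_cases h : n % q = m % q
        · rw [if_pos ⟨rfl, h.symm⟩, if_pos h]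
        · rw [if_neg (fun h' => h h'.2.symm), if_neg h]
      · intro r _ hr
        rw [if_neg (fun h' => hr h'.1.symm)]
      · intro hr
        exact absurd (mem_range.2 (Nat.mod_lt _ hq)) hr
    rw [h1]
    have h2 : (q : ℤ) ∣ (n : ℤ) - (m : ℤ) ↔ n % q = m % q := by
      rw [eq_comm]
      exact (Nat.modEq_iff_dvd (a := m) (b := n) (n := q)).symm
    by_cases h : n % q = m % q
    · rw [if_pos h, if_pos (h2.2 h)]
      push_cast; ring
    · rw [if_neg h, if_neg (fun h' => h (h2.1 h'))]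
      ring
  exact_mod_cast key

/-- the part of the window `(u, u + W]` in a residue class -/
noncomputable def CL (h : ℕ → ℂ) (W : ℕ) (u : ℤ) (q r : ℕ) : ℂ :=
  ∑ n ∈ (Icc 1 W).filter (fun n => n % q = r), hz h (u + n)

/-- the mean square over all residue classes modulo all `q ∈ [Q₀, x]` -/
lemma class_sq (h : ℕ → ℂ) (hb : ∀ n, ‖h n‖ ≤ 1) (W : ℕ) (u : ℤ) (Q0 x F0 : ℕ) (hQ0 : 1 ≤ Q0) (hF0 : 1 ≤ F0) :
    ∑ q ∈ Icc Q0 x, ∑ r ∈ range q, ‖CL h W u q r‖ ^ 2 ≤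
      (x : ℝ) / Q0 * (∑ D ∈ Icc 1 F0, AD W (fun n => hz h (u + n)) D + 12 * ((W : ℝ) / F0 + x) * W) := by
  set g : ℕ → ℂ := fun n => hz h (u + n) with hg
  have hQ0r : (0 : ℝ) < Q0 := by exact_mod_cast hQ0
  have h1 : ∀ q ∈ Icc Q0 x, ∑ r ∈ range q, ‖CL h W u q r‖ ^ 2 ≤
      ∑ D ∈ Icc 1 x, if D ∣ q then 1 / (Q0 : ℝ) * AD W g D else 0 := by
    intro q hq
    rw [mem_Icc] at hq
    have hq0 : 0 < q := by omega
    have hqr : (0 : ℝ) < q := by exact_mod_cast hq0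
    have e1 := class_pars W g q hq0
    have e2 : ∑ b ∈ range q, ‖SN W g ((b : ℝ) / q)‖ ^ 2 = ∑ D ∈ q.divisors, AD W g D :=
      frac_sum q hq0 (fun _ θ => ‖SN W g θ‖ ^ 2)
    have e3 : ∑ r ∈ range q, ‖CL h W u q r‖ ^ 2 = 1 / (q : ℝ) * ∑ D ∈ q.divisors, AD W g D := by
      rw [← e2, ← e1, hg]
      unfold CL
      field_simp
    rw [e3]
    have e4 : q.divisors = (Icc 1 x).filter (fun D => D ∣ q) := by
      ext D
      rw [Nat.mem_divisors, mem_filter, mem_Icc]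
      constructor
      · rintro ⟨hd, _⟩
        exact ⟨⟨Nat.pos_of_dvd_of_pos hd hq0, (Nat.le_of_dvd hq0 hd).trans hq.2⟩, hd⟩
      · rintro ⟨_, hd⟩
        exact ⟨hd, hq0.ne'⟩
    rw [← sum_filter, ← e4, ← mul_sum]
    apply mul_le_mul_of_nonneg_right _ (sum_nonneg fun D _ => AD_nonneg _ _ _)
    exact one_div_le_one_div_of_le hQ0r (by exact_mod_cast hq.1)
  have h2 : ∑ D ∈ Icc 1 x, ∑ q ∈ Icc Q0 x, (if D ∣ q then 1 / (Q0 : ℝ) * AD W g D else 0) ≤
      (x : ℝ) / Q0 * ∑ D ∈ Icc 1 x, AD W g D / D := by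
    rw [mul_sum]
    apply sum_le_sum
    intro D hD
    rw [mem_Icc] at hD
    rw [← sum_filter, sum_const, nsmul_eq_mul]
    have hDr : (0 : ℝ) < D := by exact_mod_cast hD.1
    have c1 : ((((Icc Q0 x).filter (fun q => D ∣ q)).card : ℕ) : ℝ) ≤ (x : ℝ) / D := by
      have : ((Icc Q0 x).filter (fun q => D ∣ q)).card ≤ x / D := by
        rw [← Nat.Ioc_filter_dvd_card_eq_div]
        apply card_le_card
        intro q hq
        rw [mem_filter, mem_Icc] at hq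
        rw [mem_filter, mem_Ioc]
        exact ⟨⟨by omega, hq.1.2⟩, hq.2⟩
      calc ((((Icc Q0 x).filter (fun q => D ∣ q)).card : ℕ) : ℝ) ≤ ((x / D : ℕ) : ℝ) := by exact_mod_cast this
        _ ≤ _ := Nat.cast_div_le
    calc ((((Icc Q0 x).filter (fun q => D ∣ q)).card : ℕ) : ℝ) * (1 / (Q0 : ℝ) * AD W g D)
        ≤ (x : ℝ) / D * (1 / (Q0 : ℝ) * AD W g D) :=
          mul_le_mul_of_nonneg_right c1 (mul_nonneg (by positivity) (AD_nonneg _ _ _))
      _ = _ := by ring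
  have h3 : ∑ D ∈ Icc 1 x, AD W g D / D ≤ ∑ D ∈ Icc 1 F0, AD W g D + ∑ D ∈ Icc F0 x, AD W g D / D := by
    calc ∑ D ∈ Icc 1 x, AD W g D / D ≤ ∑ D ∈ Icc 1 F0 ∪ Icc F0 x, AD W g D / D := by
          apply sum_le_sum_of_subset_of_nonneg
          · intro D hD
            rw [mem_Icc] at hD
            rw [mem_union, mem_Icc, mem_Icc]
            omega
          · intro D _ _
            exact div_nonneg (AD_nonneg _ _ _) (by positivity)
      _ ≤ ∑ D ∈ Icc 1 F0, AD W g D / D + ∑ D ∈ Icc F0 x, AD W g D / D := by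
          rw [← sum_union_inter]
          exact le_add_of_nonneg_right (sum_nonneg fun D _ => div_nonneg (AD_nonneg _ _ _) (by positivity))
      _ ≤ _ := by
          apply add_le_add _ le_rfl
          apply sum_le_sum
          intro D hD
          rw [mem_Icc] at hD
          exact div_le_self (AD_nonneg _ _ _) (by exact_mod_cast hD.1)
  have h4 : ∑ D ∈ Icc F0 x, AD W g D / D ≤ 12 * ((W : ℝ) / F0 + x) * W := by
    refine (AD_weighted W g F0 x hF0).trans ?_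
    apply mul_le_mul_of_nonneg_left _ (by positivity)
    calc ∑ n ∈ Icc 1 W, ‖g n‖ ^ 2 ≤ ∑ n ∈ Icc 1 W, (1 : ℝ) := by
          apply sum_le_sum
          intro n _
          have := hz_norm h hb (u + n)
          exact pow_le_one₀ (norm_nonneg _) this
      _ = W := by simp
  calc ∑ q ∈ Icc Q0 x, ∑ r ∈ range q, ‖CL h W u q r‖ ^ 2 ≤
        ∑ q ∈ Icc Q0 x, ∑ D ∈ Icc 1 x, (if D ∣ q then 1 / (Q0 : ℝ) * AD W g D else 0) := sum_le_sum h1
    _ = ∑ D ∈ Icc 1 x, ∑ q ∈ Icc Q0 x, (if D ∣ q then 1 / (Q0 : ℝ) * AD W g D else 0) := sum_comm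
    _ ≤ (x : ℝ) / Q0 * ∑ D ∈ Icc 1 x, AD W g D / D := h2
    _ ≤ _ := by
        apply mul_le_mul_of_nonneg_left _ (by positivity)
        linarith

/-- the residue classes modulo all `q ∈ [Q₀, x]` -/
noncomputable def Phi (h : ℕ → ℂ) (W Q0 x : ℕ) (u : ℤ) : ℝ := ∑ q ∈ Icc Q0 x, ∑ r ∈ range q, ‖CL h W u q r‖

lemma Phi_nonneg (h : ℕ → ℂ) (W Q0 x : ℕ) (u : ℤ) : 0 ≤ Phi h W Q0 x u :=
  sum_nonneg fun _ _ => sum_nonneg fun _ _ => norm_nonneg _

lemma sqrt_sum_le {ι : Type} (s : Finset ι) (f : ι → ℝ) (hf : ∀ i, 0 ≤ f i) :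
    Real.sqrt (∑ i ∈ s, f i ^ 2) ≤ ∑ i ∈ s, f i := by
  apply Real.sqrt_le_iff.2
  refine ⟨sum_nonneg fun i _ => hf i, ?_⟩
  exact sum_sq_le_sq_sum_of_nonneg (fun i _ => hf i)

lemma Phi_le (h : ℕ → ℂ) (hb : ∀ n, ‖h n‖ ≤ 1) (W : ℕ) (u : ℤ) (Q0 x F0 : ℕ) (hQ0 : 1 ≤ Q0) (hF0 : 1 ≤ F0) :
    Phi h W Q0 x u ≤ x * Real.sqrt ((x : ℝ) / Q0) * (∑ D ∈ Icc 1 F0, ∑ a ∈ range D, ‖WS h W u ((a : ℝ) / D)‖ +
      Real.sqrt (12 * ((W : ℝ) / F0 + x) * W)) := by
  have h1 := class_sq h hb W u Q0 x F0 hQ0 hF0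
  set A := ∑ D ∈ Icc 1 F0, AD W (fun n => hz h (u + n)) D with hA
  set B := 12 * ((W : ℝ) / F0 + x) * W with hB
  have hA0 : 0 ≤ A := sum_nonneg fun D _ => AD_nonneg _ _ _
  have hB0 : 0 ≤ B := by positivity
  have h2 : Phi h W Q0 x u ^ 2 ≤ (x : ℝ) ^ 2 * ((x : ℝ) / Q0 * (A + B)) := by
    unfold Phi
    rw [sum_sigma']
    refine (sq_sum_le_card_mul_sum_sq (s := (Icc Q0 x).sigma fun q => range q)
      (f := fun p => ‖CL h W u p.1 p.2‖)).trans ?_
    rw [← sum_sigma' (Icc Q0 x) (fun q => range q) (fun q r => ‖CL h W u q r‖ ^ 2)]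
    apply mul_le_mul _ h1 (sum_nonneg fun _ _ => sum_nonneg fun _ _ => by positivity) (by positivity)
    rw [card_sigma]
    push_cast
    calc ∑ q ∈ Icc Q0 x, ((range q).card : ℝ) ≤ ∑ q ∈ Icc Q0 x, (x : ℝ) := by
          apply sum_le_sum
          intro q hq
          rw [mem_Icc] at hq
          rw [card_range]
          exact_mod_cast hq.2
      _ ≤ (x : ℝ) ^ 2 := by
          rw [sum_const, nsmul_eq_mul, sq]
          apply mul_le_mul_of_nonneg_right _ (by positivity)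
          rw [Nat.card_Icc]
          exact_mod_cast (by omega : x + 1 - Q0 ≤ x)
  have h3 : Phi h W Q0 x u ≤ x * Real.sqrt ((x : ℝ) / Q0) * (Real.sqrt A + Real.sqrt B) := by
    apply le_of_sq_le_sq _ (by positivity)
    refine h2.trans ?_
    rw [mul_pow, mul_pow, Real.sq_sqrt (by positivity)]
    have : A + B ≤ (Real.sqrt A + Real.sqrt B) ^ 2 := by
      have s1 := Real.sq_sqrt hA0
      have s2 := Real.sq_sqrt hB0
      have s3 : 0 ≤ Real.sqrt A * Real.sqrt B := by positivity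
      nlinarith
    calc (x : ℝ) ^ 2 * ((x : ℝ) / Q0 * (A + B)) ≤ (x : ℝ) ^ 2 * ((x : ℝ) / Q0 * (Real.sqrt A + Real.sqrt B) ^ 2) := by
          gcongr
      _ = _ := by ring
  refine h3.trans ?_
  apply mul_le_mul_of_nonneg_left _ (by positivity)
  apply add_le_add _ le_rfl
  rw [hA]
  have h4 : ∑ D ∈ Icc 1 F0, AD W (fun n => hz h (u + n)) D ≤
      ∑ D ∈ Icc 1 F0, ∑ a ∈ range D, ‖WS h W u ((a : ℝ) / D)‖ ^ 2 := by
    apply sum_le_sum
    intro D _
    unfold AD WS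
    apply sum_le_sum_of_subset_of_nonneg (filter_subset _ _)
    intro a _ _
    positivity
  refine (Real.sqrt_le_sqrt h4).trans ?_
  rw [sum_sigma', sum_sigma']
  exact sqrt_sum_le _ (fun p : (Σ _ : ℕ, ℕ) => ‖WS h W u ((p.2 : ℝ) / p.1)‖) (fun _ => norm_nonneg _)

/-- the residue classes in the windows: the sum over all windows -/
lemma Phi_sum (h : ℕ → ℂ) (hb : ∀ n, ‖h n‖ ≤ 1) (hE : ExpoSmall h) (ε : ℝ) (hε : 0 < ε) (κ : ℝ) (hκ : 0 < κ) :
    ∃ W₀ X₀ : ℕ, ∃ δ : ℝ, 0 < δ ∧ ∀ X : ℕ, X₀ ≤ X → ∀ W : ℕ, W₀ ≤ W → W ≤ X → ∀ x Q0 : ℕ, 1 ≤ Q0 → κ * x ≤ Q0 →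
      (x : ℝ) ≤ δ * W → ∑ u ∈ Icc (-(X : ℤ)) X, Phi h W Q0 x u ≤ ε * x * W * X := by
  set η : ℝ := ε * Real.sqrt κ / 4 with hη
  have hη0 : 0 < η := by positivity
  obtain ⟨F0, hF0⟩ := exists_nat_gt (24 / η ^ 2)
  have hF0r : (0 : ℝ) < F0 := lt_trans (by positivity) hF0
  have hF01 : 1 ≤ F0 := by exact_mod_cast hF0r
  obtain ⟨W₀, X₀, hX⟩ := winZ h hb hE (η / (F0 : ℝ) ^ 2) (by positivity)
  refine ⟨W₀, max X₀ 1, η ^ 2 / 24, by positivity, fun X hX0 W hW1 hW2 x Q0 hQ0 hκx hxW => ?_⟩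
  have hX1 : X₀ ≤ X := le_trans (le_max_left _ _) hX0
  have hX2 : (1 : ℝ) ≤ X := by exact_mod_cast le_trans (le_max_right _ _) hX0
  have hQ0r : (0 : ℝ) < Q0 := by exact_mod_cast hQ0
  have r1 : Real.sqrt ((x : ℝ) / Q0) ≤ 1 / Real.sqrt κ := by
    rw [← Real.sqrt_one, ← Real.sqrt_div zero_le_one]
    apply Real.sqrt_le_sqrt
    rw [div_le_div_iff₀ hQ0r hκ]
    linarith
  have r2 : Real.sqrt (12 * ((W : ℝ) / F0 + x) * W) ≤ η * W := by
    apply Real.sqrt_le_iff.2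
    refine ⟨by positivity, ?_⟩
    have t1 : (W : ℝ) / F0 ≤ η ^ 2 / 24 * W := by
      rw [div_lt_iff₀ (by positivity)] at hF0
      rw [div_le_iff₀ hF0r]
      have : (1 : ℝ) * W ≤ (η ^ 2 * F0 / 24) * W := by
        apply mul_le_mul_of_nonneg_right _ (by positivity)
        linarith
      linarith
    calc 12 * ((W : ℝ) / F0 + x) * W ≤ 12 * (η ^ 2 / 24 * W + η ^ 2 / 24 * W) * W := by gcongr
      _ = _ := by ring
  have r3 : ∑ u ∈ Icc (-(X : ℤ)) X, ∑ D ∈ Icc 1 F0, ∑ a ∈ range D, ‖WS h W u ((a : ℝ) / D)‖ ≤ η * W * X := by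
    rw [sum_comm]
    have : ∀ D ∈ Icc 1 F0, ∑ u ∈ Icc (-(X : ℤ)) X, ∑ a ∈ range D, ‖WS h W u ((a : ℝ) / D)‖ ≤ F0 * (η / (F0 : ℝ) ^ 2 * W * X) := by
      intro D hD
      rw [mem_Icc] at hD
      rw [sum_comm]
      refine (sum_le_sum fun (a : ℕ) _ => hX X hX1 W hW1 hW2 ((a : ℝ) / D)).trans ?_
      rw [sum_const, card_range, nsmul_eq_mul]
      apply mul_le_mul_of_nonneg_right _ (by positivity)
      exact_mod_cast hD.2
    refine (sum_le_sum this).trans ?_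
    rw [sum_const, Nat.card_Icc, nsmul_eq_mul, Nat.add_sub_cancel]
    have : (F0 : ℝ) * (F0 * (η / (F0 : ℝ) ^ 2 * W * X)) = η * W * X := by
      field_simp
    rw [this]
  calc ∑ u ∈ Icc (-(X : ℤ)) X, Phi h W Q0 x u ≤ ∑ u ∈ Icc (-(X : ℤ)) X, x * (1 / Real.sqrt κ) *
        (∑ D ∈ Icc 1 F0, ∑ a ∈ range D, ‖WS h W u ((a : ℝ) / D)‖ + η * W) := by
        apply sum_le_sum
        intro u _
        refine (Phi_le h hb W u Q0 x F0 hQ0 hF01).trans ?_
        gcongr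
    _ = x * (1 / Real.sqrt κ) * (∑ u ∈ Icc (-(X : ℤ)) X, ∑ D ∈ Icc 1 F0, ∑ a ∈ range D, ‖WS h W u ((a : ℝ) / D)‖ +
        (2 * X + 1) * (η * W)) := by
        rw [← mul_sum, sum_add_distrib, sum_const, nsmul_eq_mul, Int.card_Icc]
        congr 3
        have : ((X : ℤ) + 1 - -(X : ℤ)).toNat = 2 * X + 1 := by omega
        rw [this]
        push_cast
        ring
    _ ≤ x * (1 / Real.sqrt κ) * (η * W * X + (2 * X + X) * (η * W)) := by gcongr
    _ = _ := by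
        rw [hη]
        have : Real.sqrt κ ≠ 0 := by positivity
        field_simp
        ring

end Pool.Agent.TH892.RT
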